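import Mathlib

namespace Pool.Agent.KS6_21.QGEO
open EuclideanGeometry Real Set

abbrev E3 := EuclideanSpace ℝ (Fin 3)

/-- The face of the tetrahedron `V` opposite to the vertex `V i`. -/
def face (V : Fin 4 → E3) (i : Fin 4) : Set E3 := convexHull ℝ (V '' {j | j ≠ i})

/-- `p` lies strictly between `x` and `y` on a segment inside one face. -/
def Straight (V : Fin 4 → E3) (x p y : E3) : Prop :=
  ∃ i, x ∈ face V i ∧ y ∈ face V i ∧ x ≠ y ∧ p ∈ openSegment ℝ x y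

/-- `p` is inside the edge `V a V b`, reached from `x` in the face `a b c` and left towards `y`
in the face `a b d`: the surface angles on the two sides are both at most `π`. -/
def EdgeBreak (V : Fin 4 → E3) (x p y : E3) : Prop :=
  ∃ a b c d : Fin 4, [a, b, c, d].Nodup ∧ p ∈ openSegment ℝ (V a) (V b) ∧
    x ∈ face V d ∧ y ∈ face V c ∧ x ∉ segment ℝ (V a) (V b) ∧ y ∉ segment ℝ (V a) (V b) ∧
    ∠ x p (V a) + ∠ (V a) p y ≤ π ∧ ∠ x p (V b) + ∠ (V b) p y ≤ π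

/-- `p = V a`, with both neighbours `x, y` in the face `a b c`: the surface angles on the two sides
are `α = ∠ x p y` and `θ - α`, where `θ` is the total angle at `V a`; both are at most `π`. -/
def VertexBreak (V : Fin 4 → E3) (x p y : E3) : Prop :=
  ∃ a b c d : Fin 4, [a, b, c, d].Nodup ∧ p = V a ∧ x ∈ face V d ∧ y ∈ face V d ∧
    ∠ x p y ≤ π ∧ (∠ (V b) p (V c) + ∠ (V c) p (V d) + ∠ (V d) p (V b)) - ∠ x p y ≤ π

/-- Near the parameter `0` the curve `δ` consists of two segments meeting at `δ 0`, and the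
quasigeodesic angle condition holds at `δ 0`. -/
def Loc (V : Fin 4 → E3) (δ : ℝ → E3) : Prop :=
  ∃ ε > 0, δ '' Icc (-ε) 0 = segment ℝ (δ (-ε)) (δ 0) ∧ δ '' Icc 0 ε = segment ℝ (δ 0) (δ ε) ∧
    (Straight V (δ (-ε)) (δ 0) (δ ε) ∨ EdgeBreak V (δ (-ε)) (δ 0) (δ ε) ∨
      VertexBreak V (δ (-ε)) (δ 0) (δ ε))

/-- A simple closed curve (period 2) on the surface of the tetrahedron `V` that satisfies the
quasigeodesic condition at every point. -/
def SimpleQG (V : Fin 4 → E3) (γ : ℝ → E3) : Prop :=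
  Continuous γ ∧ Function.Periodic γ 2 ∧ InjOn γ (Ico 0 2) ∧ ∀ τ, Loc V (fun ρ => γ (τ + ρ))

noncomputable def V0 : Fin 4 → E3 := ![!₂[1, 1, 1], !₂[1, -1, -1], !₂[-1, 1, -1], !₂[-1, -1, 1]]

/-- model of the edge condition, coordinate by coordinate -/
def EB (x p y : E3) : Prop :=
  ∃ a b c d : Fin 4, [a, b, c, d].Nodup ∧ p ∈ openSegment ℝ (V0 a) (V0 b) ∧
    x ∈ face V0 d ∧ y ∈ face V0 c ∧ x ∉ segment ℝ (V0 a) (V0 b) ∧ y ∉ segment ℝ (V0 a) (V0 b) ∧
    (∀ k, (x k - p k) ^ 2 = (y k - p k) ^ 2) ∧ (∀ k, (x k + y k - 2 * p k) * (V0 a k - p k) = 0) ∧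
    (∀ k, (x k + y k - 2 * p k) * (V0 b k - p k) = 0)

/-- model of the vertex condition -/
def VB (x p y : E3) : Prop :=
  ∃ a b c d : Fin 4, [a, b, c, d].Nodup ∧ p = V0 a ∧ x ∈ face V0 d ∧ y ∈ face V0 d

/-- model of the local condition -/
def Loc0 (δ : ℝ → E3) : Prop :=
  ∃ ε > 0, δ '' Icc (-ε) 0 = segment ℝ (δ (-ε)) (δ 0) ∧ δ '' Icc 0 ε = segment ℝ (δ 0) (δ ε) ∧
    (Straight V0 (δ (-ε)) (δ 0) (δ ε) ∨ EB (δ (-ε)) (δ 0) (δ ε) ∨ VB (δ (-ε)) (δ 0) (δ ε))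

lemma e3 {p q : E3} (e0 : p 0 = q 0) (e1 : p 1 = q 1) (e2 : p 2 = q 2) : p = q := by
  ext i; fin_cases i <;> simp [e0, e1, e2]

lemma supp (x p y q : E3)
    (hn : (x 0 - p 0) ^ 2 + (x 1 - p 1) ^ 2 + (x 2 - p 2) ^ 2
      = (y 0 - p 0) ^ 2 + (y 1 - p 1) ^ 2 + (y 2 - p 2) ^ 2)
    (hi : (x 0 - p 0) * (q 0 - p 0) + (x 1 - p 1) * (q 1 - p 1) + (x 2 - p 2) * (q 2 - p 2)
      + ((y 0 - p 0) * (q 0 - p 0) + (y 1 - p 1) * (q 1 - p 1) + (y 2 - p 2) * (q 2 - p 2)) = 0) :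
    ∠ x p q + ∠ q p y ≤ π := by
  unfold EuclideanGeometry.angle InnerProductGeometry.angle
  have h1 : ‖y -ᵥ p‖ = ‖x -ᵥ p‖ := by
    rw [EuclideanSpace.norm_eq, EuclideanSpace.norm_eq]
    simp only [vsub_eq_sub, Fin.sum_univ_three, PiLp.sub_apply, Real.norm_eq_abs, sq_abs]
    rw [hn]
  have h2 : inner ℝ (q -ᵥ p) (y -ᵥ p) = -inner ℝ (x -ᵥ p) (q -ᵥ p) := by
    simp only [vsub_eq_sub, PiLp.inner_apply, Fin.sum_univ_three, PiLp.sub_apply,
      RCLike.inner_apply, conj_trivial]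
    linarith
  rw [h1, h2, mul_comm ‖q -ᵥ p‖, neg_div, Real.arccos_neg]; linarith

lemma seg {p q x : E3} : x ∈ segment ℝ p q ↔ ∃ t : ℝ, 0 ≤ t ∧ t ≤ 1 ∧ x 0 = p 0 + t * (q 0 - p 0) ∧
    x 1 = p 1 + t * (q 1 - p 1) ∧ x 2 = p 2 + t * (q 2 - p 2) := by
  rw [segment_eq_image']
  constructor
  · rintro ⟨t, ⟨h0, h1⟩, rfl⟩
    exact ⟨t, h0, h1, by simp, by simp, by simp⟩
  · rintro ⟨t, h0, h1, e0, e1, e2⟩
    refine ⟨t, ⟨h0, h1⟩, ?_⟩
    ext i; fin_cases i <;> simp [e0, e1, e2]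

lemma oseg {p q x : E3} (t : ℝ) (h0 : 0 < t) (h1 : t < 1) (e0 : x 0 = p 0 + t * (q 0 - p 0))
    (e1 : x 1 = p 1 + t * (q 1 - p 1)) (e2 : x 2 = p 2 + t * (q 2 - p 2)) : x ∈ openSegment ℝ p q := by
  rw [openSegment_eq_image']
  refine ⟨t, ⟨h0, h1⟩, ?_⟩
  ext i; fin_cases i <;> simp [e0, e1, e2]

lemma img (δ : ℝ → E3) (a b : ℝ) (hab : a < b) (p w : E3) (h : ∀ ρ ∈ Icc a b, δ ρ = p + ρ • w) :
    δ '' Icc a b = segment ℝ (δ a) (δ b) := by
  have h1 : δ '' Icc a b = (AffineMap.lineMap p (p + w) : ℝ →ᵃ[ℝ] E3) '' segment ℝ a b := by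
    rw [segment_eq_Icc hab.le]
    refine image_congr fun ρ hρ => ?_
    rw [h ρ hρ, AffineMap.lineMap_apply]; simp [add_comm]
  rw [h1, image_segment, h a ⟨le_rfl, hab.le⟩, h b ⟨hab.le, le_rfl⟩]
  simp [AffineMap.lineMap_apply, add_comm]


noncomputable def lam (x : E3) : Fin 4 → ℝ := ![(1 + x 0 + x 1 + x 2) / 4, (1 + x 0 - x 1 - x 2) / 4,
  (1 - x 0 + x 1 - x 2) / 4, (1 - x 0 - x 1 + x 2) / 4]

lemma inface (i : Fin 4) (x : E3) (h : ∀ j, 0 ≤ lam x j) (hi : lam x i = 0) : x ∈ face V0 i := by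
  have h1 : ∑ j, lam x j = 1 := by simp [lam, Fin.sum_univ_four]; ring
  have h2 : ∑ j, lam x j • V0 j = x := by
    apply e3 <;> simp [lam, V0, Fin.sum_univ_four] <;> ring
  rw [← Finset.add_sum_erase _ _ (Finset.mem_univ i), hi, zero_add] at h1
  rw [← Finset.add_sum_erase _ _ (Finset.mem_univ i), hi, zero_smul, zero_add] at h2
  rw [← h2]
  exact (convex_convexHull ℝ _).sum_mem (fun j _ => h j) h1 fun j hj =>
    subset_convexHull ℝ _ (mem_image_of_mem V0 (Finset.ne_of_mem_erase hj))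

lemma ang (p q r : E3) :
    ∠ p q r = arccos (((p 0 - q 0) * (r 0 - q 0) + (p 1 - q 1) * (r 1 - q 1) + (p 2 - q 2) * (r 2 - q 2))
      / √(((p 0 - q 0) ^ 2 + (p 1 - q 1) ^ 2 + (p 2 - q 2) ^ 2) *
        ((r 0 - q 0) ^ 2 + (r 1 - q 1) ^ 2 + (r 2 - q 2) ^ 2))) := by
  unfold EuclideanGeometry.angle InnerProductGeometry.angle
  rw [Real.sqrt_mul (by positivity), EuclideanSpace.norm_eq, EuclideanSpace.norm_eq]
  simp only [vsub_eq_sub, PiLp.inner_apply, Fin.sum_univ_three, PiLp.sub_apply, Real.norm_eq_abs, sq_abs,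
    RCLike.inner_apply, conj_trivial]
  congr 2; ring

lemma vb (x y : E3) (a b c d : Fin 4) (hn : [a, b, c, d].Nodup) (hx : x ∈ face V0 d) (hy : y ∈ face V0 d) :
    VB x (V0 a) y := ⟨a, b, c, d, hn, rfl, hx, hy⟩

/-- local model of the folding map -/
noncomputable def mdl (e s u : ℝ) : E3 := !₂[e * (1 - 2 * |u|), 1 + 2 * s, e * (1 - 2 * |s + u|)]

lemma loc_of (δ : ℝ → E3) (ε : ℝ) (hε : 0 < ε) (p w1 w2 : E3)
    (h1 : ∀ ρ ∈ Icc (-ε) 0, δ ρ = p + ρ • w1) (h2 : ∀ ρ ∈ Icc 0 ε, δ ρ = p + ρ • w2)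
    (h : Straight V0 (p + (-ε) • w1) p (p + ε • w2) ∨ EB (p + (-ε) • w1) p (p + ε • w2) ∨
      VB (p + (-ε) • w1) p (p + ε • w2)) : Loc0 δ := by
  refine ⟨ε, hε, img δ _ _ (by linarith) p w1 h1, img δ _ _ hε p w2 h2, ?_⟩
  rw [h1 (-ε) ⟨le_rfl, by linarith⟩, h2 ε ⟨hε.le, le_rfl⟩, h2 0 ⟨le_rfl, hε.le⟩, zero_smul, add_zero]
  exact h

lemma loc_neg (δ : ℝ → E3) (h : Loc0 δ) : Loc0 (fun ρ => δ (-ρ)) := by
  obtain ⟨ε, hε, h1, h2, h3⟩ := h
  refine ⟨ε, hε, ?_, ?_, ?_⟩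
  · rw [show (fun ρ => δ (-ρ)) = δ ∘ Neg.neg from rfl, image_comp]
    simp only [image_neg_eq_neg, neg_Icc, neg_zero, neg_neg, Function.comp]
    rw [h2, segment_symm]
  · rw [show (fun ρ => δ (-ρ)) = δ ∘ Neg.neg from rfl, image_comp]
    simp only [image_neg_eq_neg, neg_Icc, neg_zero, neg_neg, Function.comp]
    rw [h1, segment_symm]
  · simp only [neg_neg, neg_zero]
    rcases h3 with ⟨i, a, b, c, d⟩ | ⟨a, b, c, d, hn, hp, hx, hy, nx, ny, i0, i1, i2⟩ |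
      ⟨a, b, c, d, hn, hp, hx, hy⟩
    · exact Or.inl ⟨i, b, a, c.symm, by rwa [openSegment_symm]⟩
    · have k : ∀ a b c d : Fin 4, [a, b, c, d].Nodup → [a, b, d, c].Nodup := by decide
      refine Or.inr (Or.inl ⟨a, b, d, c, k _ _ _ _ hn, hp, hy, hx, ny, nx, ?_, ?_, ?_⟩)
      · exact fun k => (i0 k).symm
      · intro k; linarith [i1 k]
      · intro k; linarith [i2 k]
    · exact Or.inr (Or.inr ⟨a, b, c, d, hn, hp, hy, hx⟩)

lemma small (M ε0 η : ℝ) (hM : 2 ≤ M) (h0 : 0 < ε0) (hη : 0 < η) :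
    ∃ ε > 0, ε ≤ ε0 ∧ M * ε < η ∧ 2 * ε ≤ M * ε ∧
      (∀ ρ ∈ Icc (-ε) 0, |ρ| ≤ ε0 ∧ -(M * ε) ≤ M * ρ ∧ M * ρ ≤ 2 * ρ) ∧
      (∀ ρ ∈ Icc 0 ε, |ρ| ≤ ε0 ∧ 2 * ρ ≤ M * ρ ∧ M * ρ ≤ M * ε) := by
  have h1 : 0 < η / (2 * M) := by positivity
  refine ⟨min ε0 (η / (2 * M)), lt_min h0 h1, min_le_left _ _, ?_, ?_, ?_, ?_⟩
  · have := min_le_right ε0 (η / (2 * M))
    have h2 : M * (η / (2 * M)) = η / 2 := by field_simp
    nlinarith
  · nlinarith [lt_min h0 h1]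
  · rintro ρ ⟨a, b⟩
    refine ⟨abs_le.2 ⟨by linarith [min_le_left ε0 (η / (2 * M))], by linarith⟩, by nlinarith, by nlinarith⟩
  · rintro ρ ⟨a, b⟩
    refine ⟨abs_le.2 ⟨by linarith, by linarith [min_le_left ε0 (η / (2 * M))]⟩, by nlinarith, by nlinarith⟩

lemma locA (e M s ε0 : ℝ) (he : e = 1 ∨ e = -1) (hM : 2 ≤ M) (s0 : -1 < s) (s1 : s < 0) (h0 : 0 < ε0)
    (δ : ℝ → E3) (hδ : ∀ ρ, |ρ| ≤ ε0 → δ ρ = mdl e (s - ρ) (M * ρ)) : Loc0 δ := by
  obtain ⟨ε, hε, -, k1, k2, k3, k4⟩ := small M ε0 (min (-s) (1 + s)) hM h0 (lt_min (by linarith) (by linarith))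
  have k5 := min_le_left (-s) (1 + s)
  have k6 := min_le_right (-s) (1 + s)
  refine loc_of δ ε hε !₂[e, 1 + 2 * s, e * (1 + 2 * s)] !₂[2 * e * M, -2, 2 * e * (M - 1)]
    !₂[-2 * e * M, -2, 2 * e * (M - 1)] ?_ ?_ (Or.inr (Or.inl ?_))
  · intro ρ hρ
    obtain ⟨a, b, c⟩ := k3 ρ hρ
    have := hρ.1; have := hρ.2
    rw [hδ ρ a, mdl, abs_of_nonpos (by linarith), abs_of_nonpos (by linarith)]
    apply e3 <;> simp <;> ring
  · intro ρ hρ
    obtain ⟨a, b, c⟩ := k4 ρ hρ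
    have := hρ.1; have := hρ.2
    rw [hδ ρ a, mdl, abs_of_nonneg (by linarith), abs_of_nonpos (by linarith)]
    apply e3 <;> simp <;> ring
  · rcases he with rfl | rfl
    · refine ⟨0, 1, 2, 3, by decide, oseg (-s) (by linarith) (by linarith) ?_ ?_ ?_,
        inface _ _ (fun j => ?_) ?_, inface _ _ (fun j => ?_) ?_, ?_, ?_, fun k => ?_, fun k => ?_, fun k => ?_⟩
      all_goals first
        | (fin_cases j <;> simp [lam] <;> linarith)
        | (rw [seg]; rintro ⟨t, t0, t1, a0, a1, a2⟩; simp [V0] at a0 a1 a2; nlinarith)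
        | (fin_cases k <;> simp [V0] <;> first | ring1 | (left; ring1) | (right; ring1))
        | (simp [V0, lam] <;> ring)
    · refine ⟨2, 3, 0, 1, by decide, oseg (-s) (by linarith) (by linarith) ?_ ?_ ?_,
        inface _ _ (fun j => ?_) ?_, inface _ _ (fun j => ?_) ?_, ?_, ?_, fun k => ?_, fun k => ?_, fun k => ?_⟩
      all_goals first
        | (fin_cases j <;> simp [lam] <;> linarith)
        | (rw [seg]; rintro ⟨t, t0, t1, a0, a1, a2⟩; simp [V0] at a0 a1 a2; nlinarith)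
        | (fin_cases k <;> simp [V0] <;> first | ring1 | (left; ring1) | (right; ring1))
        | (simp [V0, lam] <;> ring)

lemma locB (e M s ε0 : ℝ) (he : e = 1 ∨ e = -1) (hM : 2 ≤ M) (s0 : -1 < s) (s1 : s < 0) (h0 : 0 < ε0)
    (δ : ℝ → E3) (hδ : ∀ ρ, |ρ| ≤ ε0 → δ ρ = mdl e (s - ρ) (-s + M * ρ)) : Loc0 δ := by
  obtain ⟨ε, hε, -, k1, k2, k3, k4⟩ := small M ε0 (min (-s) (1 + s)) hM h0 (lt_min (by linarith) (by linarith))
  have k5 := min_le_left (-s) (1 + s)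
  have k6 := min_le_right (-s) (1 + s)
  refine loc_of δ ε hε !₂[e * (1 + 2 * s), 1 + 2 * s, e] !₂[-2 * e * M, -2, 2 * e * (M - 1)]
    !₂[-2 * e * M, -2, -2 * e * (M - 1)] ?_ ?_ (Or.inr (Or.inl ?_))
  · intro ρ hρ
    obtain ⟨a, b, c⟩ := k3 ρ hρ
    have := hρ.1; have := hρ.2
    rw [hδ ρ a, mdl, abs_of_nonneg (by linarith), abs_of_nonpos (by linarith)]
    apply e3 <;> simp <;> ring
  · intro ρ hρ
    obtain ⟨a, b, c⟩ := k4 ρ hρ
    have := hρ.1; have := hρ.2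
    rw [hδ ρ a, mdl, abs_of_nonneg (by linarith), abs_of_nonneg (by linarith)]
    apply e3 <;> simp <;> ring
  · rcases he with rfl | rfl
    · refine ⟨0, 3, 1, 2, by decide, oseg (-s) (by linarith) (by linarith) ?_ ?_ ?_,
        inface _ _ (fun j => ?_) ?_, inface _ _ (fun j => ?_) ?_, ?_, ?_, fun k => ?_, fun k => ?_, fun k => ?_⟩
      all_goals first
        | (fin_cases j <;> simp [lam] <;> linarith)
        | (rw [seg]; rintro ⟨t, t0, t1, a0, a1, a2⟩; simp [V0] at a0 a1 a2; nlinarith)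
        | (fin_cases k <;> simp [V0] <;> first | ring1 | (left; ring1) | (right; ring1))
        | (simp [V0, lam] <;> ring)
    · refine ⟨2, 1, 3, 0, by decide, oseg (-s) (by linarith) (by linarith) ?_ ?_ ?_,
        inface _ _ (fun j => ?_) ?_, inface _ _ (fun j => ?_) ?_, ?_, ?_, fun k => ?_, fun k => ?_, fun k => ?_⟩
      all_goals first
        | (fin_cases j <;> simp [lam] <;> linarith)
        | (rw [seg]; rintro ⟨t, t0, t1, a0, a1, a2⟩; simp [V0] at a0 a1 a2; nlinarith)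
        | (fin_cases k <;> simp [V0] <;> first | ring1 | (left; ring1) | (right; ring1))
        | (simp [V0, lam] <;> ring)

lemma straight (i : Fin 4) (p w : E3) (ε : ℝ) (hε : 0 < ε) (hw : w 1 = -2)
    (hx : p + (-ε) • w ∈ face V0 i) (hy : p + ε • w ∈ face V0 i) :
    Straight V0 (p + (-ε) • w) p (p + ε • w) := by
  refine ⟨i, hx, hy, fun h => ?_, oseg (1 / 2) (by norm_num) (by norm_num) ?_ ?_ ?_⟩
  · have := congrArg (fun v : E3 => v 1) h
    simp [hw] at this; linarith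
  all_goals simp; ring

lemma locC (e M s u ε0 : ℝ) (he : e = 1 ∨ e = -1) (hM : 2 ≤ M) (s0 : -1 < s) (s1 : s < 0) (h0 : 0 < ε0)
    (u0 : 0 < u) (u1 : u < 1) (hu : s + u ≠ 0)
    (δ : ℝ → E3) (hδ : ∀ ρ, |ρ| ≤ ε0 → δ ρ = mdl e (s - ρ) (u + M * ρ)) : Loc0 δ := by
  rcases lt_or_gt_of_ne hu with hu | hu
  · obtain ⟨ε, hε, -, k1, k2, k3, k4⟩ := small M ε0 (min u (min (-(s + u)) (1 + s))) hM h0
      (lt_min u0 (lt_min (by linarith) (by linarith)))
    rw [lt_min_iff, lt_min_iff] at k1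
    obtain ⟨k5, k6, k7⟩ := k1
    have key : ∀ ρ, |ρ| ≤ ε0 → 0 ≤ u + M * ρ → s - ρ + (u + M * ρ) ≤ 0 → δ ρ =
        !₂[e * (1 - 2 * u), 1 + 2 * s, e * (1 + 2 * (s + u))] + ρ • !₂[-2 * e * M, -2, 2 * e * (M - 1)] := by
      intro ρ a b c
      rw [hδ ρ a, mdl, abs_of_nonneg b, abs_of_nonpos c]
      apply e3 <;> simp <;> ring
    refine loc_of δ ε hε !₂[e * (1 - 2 * u), 1 + 2 * s, e * (1 + 2 * (s + u))] !₂[-2 * e * M, -2, 2 * e * (M - 1)]
      !₂[-2 * e * M, -2, 2 * e * (M - 1)] (fun ρ hρ => ?_) (fun ρ hρ => ?_) (Or.inl ?_)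
    · obtain ⟨a, b, c⟩ := k3 ρ hρ
      exact key ρ a (by linarith) (by linarith [hρ.1, hρ.2])
    · obtain ⟨a, b, c⟩ := k4 ρ hρ
      exact key ρ a (by linarith [hρ.1, hρ.2]) (by linarith [hρ.1, hρ.2])
    · rcases he with rfl | rfl
      · refine straight 2 _ _ _ hε (by simp) (inface _ _ (fun j => ?_) ?_) (inface _ _ (fun j => ?_) ?_)
        all_goals first
          | (fin_cases j <;> simp [lam] <;> linarith)
          | (simp [lam] <;> ring)
      · refine straight 0 _ _ _ hε (by simp) (inface _ _ (fun j => ?_) ?_) (inface _ _ (fun j => ?_) ?_)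
        all_goals first
          | (fin_cases j <;> simp [lam] <;> linarith)
          | (simp [lam] <;> ring)
  · obtain ⟨ε, hε, -, k1, k2, k3, k4⟩ := small M ε0 (min (s + u) (min (1 - u) (-s))) hM h0
      (lt_min hu (lt_min (by linarith) (by linarith)))
    rw [lt_min_iff, lt_min_iff] at k1
    obtain ⟨k5, k6, k7⟩ := k1
    have key : ∀ ρ, |ρ| ≤ ε0 → 0 ≤ u + M * ρ → 0 ≤ s - ρ + (u + M * ρ) → δ ρ =
        !₂[e * (1 - 2 * u), 1 + 2 * s, e * (1 - 2 * (s + u))] + ρ • !₂[-2 * e * M, -2, -2 * e * (M - 1)] := by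
      intro ρ a b c
      rw [hδ ρ a, mdl, abs_of_nonneg b, abs_of_nonneg c]
      apply e3 <;> simp <;> ring
    refine loc_of δ ε hε !₂[e * (1 - 2 * u), 1 + 2 * s, e * (1 - 2 * (s + u))] !₂[-2 * e * M, -2, -2 * e * (M - 1)]
      !₂[-2 * e * M, -2, -2 * e * (M - 1)] (fun ρ hρ => ?_) (fun ρ hρ => ?_) (Or.inl ?_)
    · obtain ⟨a, b, c⟩ := k3 ρ hρ
      exact key ρ a (by linarith) (by linarith [hρ.1, hρ.2])
    · obtain ⟨a, b, c⟩ := k4 ρ hρ
      exact key ρ a (by linarith [hρ.1, hρ.2]) (by linarith [hρ.1, hρ.2])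
    · rcases he with rfl | rfl
      · refine straight 1 _ _ _ hε (by simp) (inface _ _ (fun j => ?_) ?_) (inface _ _ (fun j => ?_) ?_)
        all_goals first
          | (fin_cases j <;> simp [lam] <;> linarith)
          | (simp [lam] <;> ring)
      · refine straight 3 _ _ _ hε (by simp) (inface _ _ (fun j => ?_) ?_) (inface _ _ (fun j => ?_) ?_)
        all_goals first
          | (fin_cases j <;> simp [lam] <;> linarith)
          | (simp [lam] <;> ring)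

noncomputable def N (x : ℝ) : ℝ := ‖(x : AddCircle (2 : ℝ))‖
noncomputable def tri (x : ℝ) : ℝ := 1 - 2 * N x

lemma N_cont : Continuous N := continuous_norm.comp (AddCircle.continuous_mk' 2)
lemma N_per (x : ℝ) (j : ℤ) : N (x + 2 * j) = N x := by
  unfold N
  have : ((2 * j : ℝ) : AddCircle (2 : ℝ)) = 0 := (AddCircle.coe_eq_zero_iff _).2 ⟨j, by simp [mul_comm]⟩
  rw [AddCircle.coe_add, this, add_zero]
lemma N_eq {x : ℝ} (h : |x| ≤ 1) : N x = |x| :=
  (AddCircle.norm_coe_eq_abs_iff 2 two_ne_zero).2 (by norm_num; exact h)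
lemma red (x : ℝ) : ∃ (j : ℤ) (r : ℝ), -1 ≤ r ∧ r < 1 ∧ x = r + 2 * j := by
  refine ⟨⌊(x + 1) / 2⌋, x - 2 * ⌊(x + 1) / 2⌋, ?_, ?_, by ring⟩
  · linarith [Int.floor_le ((x + 1) / 2)]
  · linarith [Int.lt_floor_add_one ((x + 1) / 2)]
lemma tri_per (x : ℝ) (j : ℤ) : tri (x + 2 * j) = tri x := by unfold tri; rw [N_per]
lemma tri_eq {x : ℝ} (h : |x| ≤ 1) : tri x = 1 - 2 * |x| := by unfold tri; rw [N_eq h]
lemma tri_one (x : ℝ) : tri (x + 1) = -tri x := by
  obtain ⟨j, r, h0, h1, rfl⟩ := red x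
  rw [tri_per, show r + 2 * j + 1 = r + 1 + 2 * j by ring, tri_per, tri_eq (abs_le.2 ⟨h0, h1.le⟩)]
  rcases le_total r 0 with h | h
  · rw [tri_eq (abs_le.2 ⟨by linarith, by linarith⟩), abs_of_nonneg (by linarith), abs_of_nonpos h]; ring
  · rw [show r + 1 = r - 1 + 2 * (1 : ℤ) by push_cast; ring, tri_per,
      tri_eq (abs_le.2 ⟨by linarith, by linarith⟩), abs_of_nonpos (by linarith), abs_of_nonneg h]; ring
lemma tri_int (j : ℤ) : ∃ e : ℝ, (e = 1 ∨ e = -1) ∧ ∀ x, tri (x + j) = e * tri x := by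
  rcases Int.even_or_odd' j with ⟨k, rfl | rfl⟩
  · exact ⟨1, Or.inl rfl, fun x => by push_cast; rw [tri_per, one_mul]⟩
  · refine ⟨-1, Or.inr rfl, fun x => ?_⟩
    push_cast; rw [← add_assoc, tri_one, tri_per]; ring
lemma tri_inj {a b : ℝ} (h : tri a = tri b) : ∃ j : ℤ, a - b = 2 * j ∨ a + b = 2 * j := by
  obtain ⟨j, r, h0, h1, rfl⟩ := red a
  obtain ⟨k, t, k0, k1, rfl⟩ := red b
  rw [tri_per, tri_per, tri_eq (abs_le.2 ⟨h0, h1.le⟩), tri_eq (abs_le.2 ⟨k0, k1.le⟩)] at h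
  rcases abs_eq_abs.1 (show |r| = |t| by linarith) with h | h
  · exact ⟨j - k, Or.inl (by push_cast; linarith)⟩
  · exact ⟨j + k, Or.inr (by push_cast; linarith)⟩

lemma loc_arc (M r ε1 : ℝ) (hM : 2 ≤ M) (r0 : 0 < r) (r1 : r < 1) (h1 : 0 < ε1) (δ : ℝ → E3)
    (hδ : ∀ ρ, |ρ| ≤ ε1 → δ ρ = !₂[tri (M * (r + ρ)), 1 - 2 * (r + ρ), tri ((M - 1) * (r + ρ))]) :
    Loc0 δ := by
  obtain ⟨e, he, ht⟩ := tri_int ⌊M * r⌋
  set u := M * r - ⌊M * r⌋ with hu
  have u0 : 0 ≤ u := by linarith [Int.floor_le (M * r)]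
  have u1 : u < 1 := by linarith [Int.lt_floor_add_one (M * r)]
  obtain ⟨ε, hε, k0, k1, k2, k3, k4⟩ := small M ε1 (min (1 - u) (1 - r)) hM h1
    (lt_min (by linarith) (by linarith))
  rw [lt_min_iff] at k1
  have key : ∀ ρ, |ρ| ≤ ε → δ ρ = mdl e (-r - ρ) (u + M * ρ) := by
    intro ρ hρ
    have hb : |u + M * ρ| ≤ 1 ∧ |-r - ρ + (u + M * ρ)| ≤ 1 := by
      obtain ⟨a, b⟩ := abs_le.1 hρ
      rcases le_total ρ 0 with h | h
      · obtain ⟨-, c, d⟩ := k3 ρ ⟨a, h⟩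
        constructor <;> rw [abs_le] <;> constructor <;> linarith [k1.1, k1.2]
      · obtain ⟨-, c, d⟩ := k4 ρ ⟨h, b⟩
        constructor <;> rw [abs_le] <;> constructor <;> linarith [k1.1, k1.2]
    rw [hδ ρ (hρ.trans k0), mdl, ← tri_eq hb.1, ← tri_eq hb.2, ← ht, ← ht]
    apply e3
    · simp only [Matrix.cons_val_zero]; congr 1; rw [hu]; ring
    · simp; ring
    · simp only [Matrix.cons_val]; congr 1; rw [hu]; ring
  rcases u0.eq_or_lt with h | h
  · refine locA e M (-r) ε he hM (by linarith) (by linarith) hε δ fun ρ hρ => ?_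
    rw [key ρ hρ, ← h, zero_add]
  · by_cases h2 : -r + u = 0
    · refine locB e M (-r) ε he hM (by linarith) (by linarith) hε δ fun ρ hρ => ?_
      rw [key ρ hρ, show u = - -r by linarith]
    · exact locC e M (-r) u ε he hM (by linarith) (by linarith) hε h u1 h2 δ key

noncomputable def G (m : ℝ) (τ : ℝ) : E3 := !₂[tri ((m + 1) * N τ - τ), tri τ, tri (m * N τ - τ)]

lemma G_per (m τ : ℝ) (j : ℤ) : G m (τ + 2 * j) = G m τ := by
  unfold G
  rw [N_per, tri_per, show (m + 1) * N τ - (τ + 2 * j) = (m + 1) * N τ - τ + 2 * (-j : ℤ) by push_cast; ring,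
    show m * N τ - (τ + 2 * j) = m * N τ - τ + 2 * (-j : ℤ) by push_cast; ring, tri_per, tri_per]
lemma G_pos (m : ℝ) {τ : ℝ} (h0 : 0 ≤ τ) (h1 : τ ≤ 1) :
    G m τ = !₂[tri (m * τ), 1 - 2 * τ, tri ((m - 1) * τ)] := by
  have h : |τ| ≤ 1 := abs_le.2 ⟨by linarith, h1⟩
  unfold G
  rw [N_eq h, tri_eq h, abs_of_nonneg h0, show (m + 1) * τ - τ = m * τ by ring,
    show m * τ - τ = (m - 1) * τ by ring]
lemma G_neg (m : ℝ) {τ : ℝ} (h0 : 0 ≤ τ) (h1 : τ ≤ 1) :
    G m (-τ) = !₂[tri ((m + 2) * τ), 1 - 2 * τ, tri ((m + 2 - 1) * τ)] := by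
  have h : |-τ| ≤ 1 := abs_le.2 ⟨by linarith, by linarith⟩
  unfold G
  rw [N_eq h, tri_eq h, abs_neg, abs_of_nonneg h0, show (m + 1) * τ - -τ = (m + 2) * τ by ring,
    show m * τ - -τ = (m + 2 - 1) * τ by ring]

lemma locV0 (m : ℝ) (hm : 2 ≤ m) : Loc0 (fun ρ => G m (0 + ρ)) := by
  obtain ⟨ε, hε, -, k1, k2, k3, k4⟩ := small (m + 2) 1 1 (by linarith) one_pos one_pos
  have hV : V0 0 = !₂[1, 1, 1] := rfl
  refine loc_of _ ε hε (V0 0) !₂[2 * (m + 2), 2, 2 * (m + 1)] !₂[-2 * m, -2, -2 * (m - 1)]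
    (fun ρ hρ => ?_) (fun ρ hρ => ?_) (Or.inr (Or.inr (vb _ _ 0 2 3 1 (by decide)
      (inface _ _ (fun j => ?_) ?_) (inface _ _ (fun j => ?_) ?_))))
  · obtain ⟨a, b, c⟩ := k3 ρ hρ
    have := hρ.1; have := hρ.2
    rw [zero_add, ← neg_neg ρ, G_neg m (by linarith) (by linarith),
      tri_eq (abs_le.2 ⟨by linarith, by linarith⟩), tri_eq (abs_le.2 ⟨by linarith, by linarith⟩),
      abs_of_nonneg (by linarith), abs_of_nonneg (by linarith), hV]
    apply e3 <;> simp <;> ring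
  · obtain ⟨a, b, c⟩ := k4 ρ hρ
    have := hρ.1; have := hρ.2
    have h5 : 2 * ρ ≤ m * ρ := by nlinarith
    rw [zero_add, G_pos m (by linarith) (by linarith),
      tri_eq (abs_le.2 ⟨by linarith, by linarith⟩), tri_eq (abs_le.2 ⟨by linarith, by linarith⟩),
      abs_of_nonneg (by linarith), abs_of_nonneg (by linarith), hV]
    apply e3 <;> simp <;> ring
  all_goals first
    | (fin_cases j <;> simp [lam, V0] <;> nlinarith)
    | (simp [lam, V0] <;> ring)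

lemma locV1 (k : ℤ) (hk : (2 : ℝ) ≤ 2 * k) : Loc0 (fun ρ => G (2 * k) (-1 + ρ)) := by
  obtain ⟨ε, hε, -, k1, k2, k3, k4⟩ := small (2 * k + 2) 1 1 (by linarith) one_pos one_pos
  have hV : V0 1 = !₂[1, -1, -1] := rfl
  refine loc_of _ ε hε (V0 1) !₂[2 * (2 * k), -2, -2 * (2 * k - 1)] !₂[-2 * (2 * k + 2), 2, 2 * (2 * k + 1)]
    (fun ρ hρ => ?_) (fun ρ hρ => ?_) (Or.inr (Or.inr (vb _ _ 1 2 3 0 (by decide)
      (inface _ _ (fun j => ?_) ?_) (inface _ _ (fun j => ?_) ?_))))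
  · obtain ⟨a, b, c⟩ := k3 ρ hρ
    have := hρ.1; have := hρ.2
    have h5 : 2 * k * ρ ≤ 2 * ρ := by nlinarith
    rw [show -1 + ρ = 1 + ρ + 2 * (-1 : ℤ) by push_cast; ring, G_per, G_pos _ (by linarith) (by linarith),
      show 2 * k * (1 + ρ) = 2 * k * ρ + 2 * k by ring, tri_per,
      show (2 * k - 1) * (1 + ρ) = (2 * k - 1) * ρ + 1 + 2 * (k - 1 : ℤ) by push_cast; ring, tri_per, tri_one,
      tri_eq (abs_le.2 ⟨by linarith, by linarith⟩), tri_eq (abs_le.2 ⟨by linarith, by linarith⟩),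
      abs_of_nonpos (by linarith), abs_of_nonpos (by linarith), hV]
    apply e3 <;> simp <;> ring
  · obtain ⟨a, b, c⟩ := k4 ρ hρ
    have := hρ.1; have := hρ.2
    have h5 : 2 * ρ ≤ 2 * k * ρ := by nlinarith
    rw [show -1 + ρ = -(1 - ρ) by ring, G_neg _ (by linarith) (by linarith),
      show (2 * k + 2) * (1 - ρ) = -((2 * k + 2) * ρ) + 2 * (k + 1 : ℤ) by push_cast; ring, tri_per,
      show (2 * k + 2 - 1) * (1 - ρ) = -((2 * k + 1) * ρ) + 1 + 2 * k by ring, tri_per, tri_one,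
      tri_eq (abs_le.2 ⟨by linarith, by linarith⟩), tri_eq (abs_le.2 ⟨by linarith, by linarith⟩),
      abs_of_nonpos (by linarith), abs_of_nonpos (by linarith), hV]
    apply e3 <;> simp <;> ring
  all_goals first
    | (fin_cases j <;> simp [lam, V0] <;> nlinarith)
    | (simp [lam, V0] <;> ring)

lemma G_y (m τ : ℝ) : G m τ 1 = tri τ := by simp [G]

lemma G_two {m a : ℝ} (h0 : 0 < a) (h1 : a < 1) : G m a ≠ G m (-a) := by
  intro h
  rw [G_pos m h0.le h1.le, G_neg m h0.le h1.le] at h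
  have e0 := congrArg (fun v : E3 => v 0) h
  have e2 := congrArg (fun v : E3 => v 2) h
  simp only [Matrix.cons_val_zero, Matrix.cons_val] at e0 e2
  obtain ⟨i, hi⟩ := tri_inj e0
  obtain ⟨j, hj⟩ := tri_inj e2
  have key : ∀ n : ℤ, a ≠ n := fun n hn => by
    rw [hn] at h0 h1
    have h0' : 0 < n := by exact_mod_cast h0
    have h1' : n < 1 := by exact_mod_cast h1
    omega
  rcases hi with hi | hi
  · exact key (-i) (by push_cast; linarith)
  · rcases hj with hj | hj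
    · exact key (-j) (by push_cast; linarith)
    · exact key (i - j) (by push_cast; linarith)

lemma G_qg (k : ℤ) (hk : (2 : ℝ) ≤ 2 * k) : Continuous (G (2 * k)) ∧ Function.Periodic (G (2 * k)) 2 ∧ InjOn (G (2 * k)) (Ico 0 2) ∧
      ∀ τ, Loc0 (fun ρ => G (2 * k) (τ + ρ)) := by
  refine ⟨?_, fun τ => by simpa using G_per (2 * k) τ 1, ?_, fun τ => ?_⟩
  · have hN := N_cont
    have ht : Continuous tri := by unfold tri; fun_prop
    unfold G
    refine (PiLp.continuous_toLp 2 _).comp (continuous_pi fun i => ?_)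
    fin_cases i <;> simp <;> fun_prop
  · rintro a ⟨a0, a1⟩ b ⟨b0, b1⟩ h
    have hy : tri a = tri b := by rw [← G_y (2 * k), h, G_y]
    obtain ⟨j, hj | hj⟩ := tri_inj hy
    · have j1 : (j : ℝ) < 1 := by linarith
      have j2 : (-1 : ℝ) < j := by linarith
      have j3 : j < 1 := by exact_mod_cast j1
      have j4 : -1 < j := by exact_mod_cast j2
      have : j = 0 := by omega
      rw [this] at hj; simp at hj; linarith
    · have j1 : (j : ℝ) < 2 := by linarith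
      have j2 : (0 : ℝ) ≤ j := by linarith
      have j3 : j < 2 := by exact_mod_cast j1
      have j4 : 0 ≤ j := by exact_mod_cast j2
      rcases (show j = 0 ∨ j = 1 by omega) with rfl | rfl
      · simp at hj; linarith
      · simp at hj
        rcases lt_trichotomy a 1 with c | c | c
        · rw [show b = -a + 2 * (1 : ℤ) by push_cast; linarith, G_per] at h
          exact absurd h (G_two (by linarith) c)
        · linarith
        · rw [show a = -b + 2 * (1 : ℤ) by push_cast; linarith, G_per] at h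
          exact absurd h.symm (G_two (by linarith) (by linarith))
  · obtain ⟨j, r, h0, h1, rfl⟩ := red τ
    have e : (fun ρ => G (2 * k) (r + 2 * j + ρ)) = fun ρ => G (2 * k) (r + ρ) := by
      funext ρ; rw [add_right_comm, G_per]
    rw [e]
    rcases h0.eq_or_lt with rfl | h0
    · exact locV1 k hk
    rcases lt_trichotomy r 0 with c | rfl | c
    · have := loc_neg _ (loc_arc (2 * k + 2) (-r) (min (-r) (1 + r)) (by linarith) (by linarith) (by linarith)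
        (lt_min (by linarith) (by linarith)) (fun ρ => G (2 * k) (r - ρ)) fun ρ hρ => by
          obtain ⟨a, b⟩ := abs_le.1 hρ
          have := min_le_left (-r) (1 + r); have := min_le_right (-r) (1 + r)
          rw [show r - ρ = -(-r + ρ) by ring, G_neg _ (by linarith) (by linarith)])
      simpa using this
    · exact locV0 _ hk
    · refine loc_arc (2 * k) r (min r (1 - r)) hk c h1 (lt_min c (by linarith)) _ fun ρ hρ => ?_
      obtain ⟨a, b⟩ := abs_le.1 hρ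
      have := min_le_left r (1 - r); have := min_le_right r (1 - r)
      rw [G_pos _ (by linarith) (by linarith)]

lemma G_ne {m m' : ℝ} (h0 : 0 < m) (h : m < m') : range (G m) ≠ range (G m') := by
  intro hr
  have ha : 0 < 1 / (m' + 2) := by have : 0 < m' + 2 := by linarith
                                   positivity
  set a := 1 / (m' + 2) with hdef
  have h2 : (m' + 2) * a = 1 := by rw [hdef]; field_simp [show m' + 2 ≠ 0 by linarith]
  have h3 : m * a < m' * a := by nlinarith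
  have h4 : 0 < m * a := by positivity
  obtain ⟨τ, hτ⟩ : G m a ∈ range (G m') := hr ▸ mem_range_self a
  obtain ⟨j, r, r0, r1, rfl⟩ := red τ
  rw [G_per] at hτ
  have hy : tri r = tri a := by rw [← G_y m', hτ, G_y]
  rw [tri_eq (abs_le.2 ⟨r0, r1.le⟩), tri_eq (abs_le.2 ⟨by linarith, by linarith⟩), abs_of_pos ha] at hy
  rcases (abs_eq ha.le).1 (show |r| = a by linarith) with rfl | rfl
  · rw [G_pos _ ha.le (by linarith), G_pos _ ha.le (by linarith)] at hτ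
    have e0 := congrArg (fun v : E3 => v 0) hτ
    simp only [Matrix.cons_val_zero] at e0
    rw [tri_eq (abs_le.2 ⟨by linarith, by linarith⟩), tri_eq (abs_le.2 ⟨by linarith, by linarith⟩),
      abs_of_pos (by linarith), abs_of_pos h4] at e0
    linarith
  · rw [G_neg _ ha.le (by linarith), G_pos _ ha.le (by linarith)] at hτ
    have e0 := congrArg (fun v : E3 => v 0) hτ
    simp only [Matrix.cons_val_zero] at e0
    rw [tri_eq (abs_le.2 ⟨by linarith, by linarith⟩), tri_eq (abs_le.2 ⟨by linarith, by linarith⟩),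
      abs_of_pos (by linarith), abs_of_pos h4] at e0
    linarith

end Pool.Agent.KS6_21.QGEO
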