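import Pool.Agent.KS6_21.QGEO.Main

set_option autoImplicit false

namespace Pool.Agent.KS6_21.QGEO

open EuclideanGeometry Real Set

theorem face_fA {X : Fin 3 → E3} {O : E3} {V : Fin 4 → E3} (hV : ∀ i, V i = fA X O (V0 i)) (i : Fin 4) :
    face V i = fA X O '' face V0 i := by
  unfold face
  rw [AffineMap.image_convexHull, ← image_comp]
  congr 1
  exact image_congr fun j _ => hV j

theorem seg_fA (X : Fin 3 → E3) (O x y : E3) :
    fA X O '' segment ℝ x y = segment ℝ (fA X O x) (fA X O y) := image_segment ℝ _ _ _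

theorem oseg_fA {X : Fin 3 → E3} {O p x y : E3} (h : p ∈ openSegment ℝ x y) :
    fA X O p ∈ openSegment ℝ (fA X O x) (fA X O y) := by
  rw [← image_openSegment]; exact mem_image_of_mem _ h

theorem loc_transfer {X : Fin 3 → E3} {O : E3} (hX : Orth X) {V : Fin 4 → E3}
    (hV : ∀ i, V i = fA X O (V0 i)) (hE : Equif V) (hi : Function.Injective V) {δ : ℝ → E3}
    (h : Loc0 δ) : Loc V (fun ρ => fA X O (δ ρ)) := by
  obtain ⟨ε, hε, h1, h2, h3⟩ := h
  refine ⟨ε, hε, ?_, ?_, ?_⟩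
  · rw [show (fun ρ => fA X O (δ ρ)) = fA X O ∘ δ from rfl, image_comp, h1]; exact seg_fA X O _ _
  · rw [show (fun ρ => fA X O (δ ρ)) = fA X O ∘ δ from rfl, image_comp, h2]; exact seg_fA X O _ _
  · rcases h3 with ⟨i, a, b, c, d⟩ | ⟨a, b, c, d, hn, hp, hx, hy, nx, ny, i0, i1, i2⟩ |
      ⟨a, b, c, d, hn, hp, hx, hy⟩
    · refine Or.inl ⟨i, ?_, ?_, fun e => c (fA_inj hX O e), oseg_fA d⟩
      · rw [face_fA hV]; exact mem_image_of_mem _ a
      · rw [face_fA hV]; exact mem_image_of_mem _ b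
    · refine Or.inr (Or.inl ⟨a, b, c, d, hn, ?_, ?_, ?_, ?_, ?_, ?_, ?_⟩)
      · rw [hV a, hV b]; exact oseg_fA hp
      · rw [face_fA hV]; exact mem_image_of_mem _ hx
      · rw [face_fA hV]; exact mem_image_of_mem _ hy
      · rw [hV a, hV b, ← seg_fA]
        rintro ⟨z, hz, e⟩
        exact nx (fA_inj hX O e ▸ hz)
      · rw [hV a, hV b, ← seg_fA]
        rintro ⟨z, hz, e⟩
        exact ny (fA_inj hX O e ▸ hz)
      · rw [hV a]; exact supp_fA hX O _ _ _ _ i0 i1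
      · rw [hV b]; exact supp_fA hX O _ _ _ _ i0 i2
    · refine Or.inr (Or.inr ⟨a, b, c, d, hn, ?_, ?_, ?_, angle_le_pi _ _ _, ?_⟩)
      · show fA X O (δ 0) = V a
        rw [hp, hV a]
      · rw [face_fA hV]; exact mem_image_of_mem _ hx
      · rw [face_fA hV]; exact mem_image_of_mem _ hy
      · have e : fA X O (δ 0) = V a := by rw [hp, hV a]
        show ∠ (V b) (fA X O (δ 0)) (V c) + ∠ (V c) (fA X O (δ 0)) (V d) +
          ∠ (V d) (fA X O (δ 0)) (V b) - ∠ (fA X O (δ (-ε))) (fA X O (δ 0)) (fA X O (δ ε)) ≤ π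
        rw [e, sum_angle hE hi a b c d hn]
        linarith [angle_nonneg (fA X O (δ (-ε))) (V a) (fA X O (δ ε))]

theorem exists_frame {V : Fin 4 → E3} (hE : Equif V) (hA : AffineIndependent ℝ V) :
    ∃ (X : Fin 3 → E3) (O : E3), Orth X ∧ ∀ i, V i = fA X O (V0 i) := by
  obtain ⟨h1, h2, h3⟩ := hE
  have key : ∀ u w : E3, ‖u‖ = ‖w‖ → inner ℝ (u + w) (u - w) = 0 := by
    intro u w h
    rw [inner_add_left, inner_sub_right, inner_sub_right, real_inner_self_eq_norm_sq,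
      real_inner_self_eq_norm_sq, real_inner_comm u w, h]; ring
  have hw : ∀ w : Fin 4 → ℝ, w 0 + w 1 + w 2 + w 3 = 0 →
      w 0 • V 0 + w 1 • V 1 + w 2 • V 2 + w 3 • V 3 = 0 → w 0 = 0 := by
    intro w e1 e2
    rw [affineIndependent_iff] at hA
    exact hA Finset.univ w (by rw [Fin.sum_univ_four]; exact e1) (by rw [Fin.sum_univ_four]; exact e2) 0
      (Finset.mem_univ _)
  rw [dist_eq_norm, dist_eq_norm] at h1 h2 h3
  refine ⟨![(1 / 4 : ℝ) • (V 0 + V 1 - V 2 - V 3), (1 / 4 : ℝ) • (V 0 + V 2 - V 1 - V 3),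
    (1 / 4 : ℝ) • (V 0 + V 3 - V 1 - V 2)], (1 / 4 : ℝ) • (V 0 + V 1 + V 2 + V 3), ⟨?_, ?_, ?_, ?_⟩, ?_⟩
  · show inner ℝ ((1 / 4 : ℝ) • (V 0 + V 1 - V 2 - V 3)) ((1 / 4 : ℝ) • (V 0 + V 2 - V 1 - V 3)) = 0
    rw [inner_smul_left, inner_smul_right,
      show V 0 + V 1 - V 2 - V 3 = (V 0 - V 3) + (V 1 - V 2) by abel,
      show V 0 + V 2 - V 1 - V 3 = (V 0 - V 3) - (V 1 - V 2) by abel, key _ _ h3, mul_zero, mul_zero]
  · show inner ℝ ((1 / 4 : ℝ) • (V 0 + V 1 - V 2 - V 3)) ((1 / 4 : ℝ) • (V 0 + V 3 - V 1 - V 2)) = 0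
    rw [inner_smul_left, inner_smul_right,
      show V 0 + V 1 - V 2 - V 3 = (V 0 - V 2) + (V 1 - V 3) by abel,
      show V 0 + V 3 - V 1 - V 2 = (V 0 - V 2) - (V 1 - V 3) by abel, key _ _ h2, mul_zero, mul_zero]
  · show inner ℝ ((1 / 4 : ℝ) • (V 0 + V 2 - V 1 - V 3)) ((1 / 4 : ℝ) • (V 0 + V 3 - V 1 - V 2)) = 0
    rw [inner_smul_left, inner_smul_right,
      show V 0 + V 2 - V 1 - V 3 = (V 0 - V 1) + (V 2 - V 3) by abel,
      show V 0 + V 3 - V 1 - V 2 = (V 0 - V 1) - (V 2 - V 3) by abel, key _ _ h1, mul_zero, mul_zero]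
  · intro k hk
    fin_cases k
    · have := hw ![1 / 4, 1 / 4, -(1 / 4), -(1 / 4)] (by simp) (by
        have e : (1 / 4 : ℝ) • (V 0 + V 1 - V 2 - V 3) = 0 := hk
        rw [← e]; simp only [Matrix.cons_val]; module)
      simp at this
    · have := hw ![1 / 4, -(1 / 4), 1 / 4, -(1 / 4)] (by simp) (by
        have e : (1 / 4 : ℝ) • (V 0 + V 2 - V 1 - V 3) = 0 := hk
        rw [← e]; simp only [Matrix.cons_val]; module)
      simp at this
    · have := hw ![1 / 4, -(1 / 4), -(1 / 4), 1 / 4] (by simp) (by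
        have e : (1 / 4 : ℝ) • (V 0 + V 3 - V 1 - V 2) = 0 := hk
        rw [← e]; simp only [Matrix.cons_val]; module)
      simp at this
  · intro i
    rw [fA_apply]
    fin_cases i <;> simp [V0] <;> module

theorem infinite_zero {V : Fin 4 → E3} (hE : Equif V) (hA : AffineIndependent ℝ V) :
    {S : Set E3 | ∃ γ : ℝ → E3, SimpleQG V γ ∧ S = range γ ∧ V 0 ∈ S}.Infinite := by
  obtain ⟨X, O, hX, hV⟩ := exists_frame hE hA
  have hc : Continuous (fA X O) := (fA X O).continuous_of_finiteDimensional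
  refine Set.infinite_of_injective_forall_mem
    (f := fun n : ℕ => range (fun τ => fA X O (G (2 * ((n + 1 : ℤ) : ℝ)) τ))) ?_ fun n => ?_
  · intro a b hab
    have hab' : range (G (2 * ((a + 1 : ℤ) : ℝ))) = range (G (2 * ((b + 1 : ℤ) : ℝ))) := by
      apply (fA_inj hX O).image_injective
      rw [← range_comp, ← range_comp]; exact hab
    by_contra hne
    have p : ∀ n : ℕ, (0 : ℝ) < 2 * ((n + 1 : ℤ) : ℝ) := fun n => by push_cast; positivity
    rcases lt_or_gt_of_ne hne with h | h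
    · have : (a : ℝ) < b := by exact_mod_cast h
      exact G_ne (p a) (by push_cast; linarith) hab'
    · have : (b : ℝ) < a := by exact_mod_cast h
      exact G_ne (p b) (by push_cast; linarith) hab'.symm
  · obtain ⟨g1, g2, g3, g4⟩ := G_qg (n + 1) (by push_cast; linarith [Nat.cast_nonneg (α := ℝ) n])
    refine ⟨_, ⟨hc.comp g1, fun τ => ?_, ?_, fun τ => ?_⟩, rfl, 0, ?_⟩
    · show fA X O _ = fA X O _
      rw [g2]
    · intro x hx y hy hxy
      exact g3 hx hy (fA_inj hX O hxy)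
    · exact loc_transfer hX hV hE hA.injective (g4 τ)
    · show fA X O _ = V 0
      rw [hV 0]
      congr 1
      rw [G_pos _ le_rfl zero_le_one, mul_zero, mul_zero, mul_zero, tri_eq (by simp)]
      apply e3 <;> simp [V0]

theorem face_perm (V : Fin 4 → E3) (σ : Equiv.Perm (Fin 4)) (i : Fin 4) :
    face (V ∘ σ) i = face V (σ i) := by
  unfold face
  congr 1
  rw [image_comp]
  congr 1
  ext j
  constructor
  · rintro ⟨k, hk, rfl⟩
    exact fun e => hk (σ.injective e)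
  · intro hj
    exact ⟨σ.symm j, fun e => hj (by rw [← e]; simp), by simp⟩

theorem qg_perm {V : Fin 4 → E3} {σ : Equiv.Perm (Fin 4)} {γ : ℝ → E3} (h : SimpleQG (V ∘ σ) γ) :
    SimpleQG V γ := by
  have nd : ∀ a b c d : Fin 4, [a, b, c, d].Nodup → [σ a, σ b, σ c, σ d].Nodup := by
    intro a b c d h
    exact h.map σ.injective
  refine ⟨h.1, h.2.1, h.2.2.1, fun τ => ?_⟩
  obtain ⟨ε, hε, h1, h2, h3⟩ := h.2.2.2 τ
  refine ⟨ε, hε, h1, h2, ?_⟩
  rcases h3 with ⟨i, a, b, c, d⟩ | ⟨a, b, c, d, hn, hp, hx, hy, nx, ny, i0, i1⟩ |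
      ⟨a, b, c, d, hn, hp, hx, hy, i0, i1⟩
  · rw [face_perm] at a b
    exact Or.inl ⟨σ i, a, b, c, d⟩
  · rw [face_perm] at hx hy
    exact Or.inr (Or.inl ⟨σ a, σ b, σ c, σ d, nd _ _ _ _ hn, hp, hx, hy, nx, ny, i0, i1⟩)
  · rw [face_perm] at hx hy
    exact Or.inr (Or.inr ⟨σ a, σ b, σ c, σ d, nd _ _ _ _ hn, hp, hx, hy, i0, i1⟩)

theorem infinite_all {V : Fin 4 → E3} (hE : Equif V) (hA : AffineIndependent ℝ V) (i : Fin 4) :
    {S : Set E3 | ∃ γ : ℝ → E3, SimpleQG V γ ∧ S = range γ ∧ V i ∈ S}.Infinite := by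
  set σ : Equiv.Perm (Fin 4) := Equiv.swap 0 i with hσ
  have nd : ∀ a b c d : Fin 4, [a, b, c, d].Nodup → [σ a, σ b, σ c, σ d].Nodup := by
    intro a b c d h
    exact h.map σ.injective
  have hE' : Equif (V ∘ σ) :=
    ⟨hE.all _ _ _ _ (nd 0 1 2 3 (by decide)), hE.all _ _ _ _ (nd 0 2 1 3 (by decide)),
      hE.all _ _ _ _ (nd 0 3 1 2 (by decide))⟩
  have hA' : AffineIndependent ℝ (V ∘ σ) := hA.comp_embedding σ.toEmbedding
  refine (infinite_zero hE' hA').mono ?_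
  rintro S ⟨γ, hγ, hS, h0⟩
  refine ⟨γ, qg_perm hγ, hS, ?_⟩
  have : (V ∘ σ) 0 = V i := by simp [hσ]
  rwa [this] at h0

end Pool.Agent.KS6_21.QGEO
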