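import Pool.Agent.KS6_21.QGEO.Base

set_option autoImplicit false

namespace Pool.Agent.KS6_21.QGEO

open EuclideanGeometry Real Set

/-- the linear map with `e_k ↦ X k` -/
noncomputable def fL (X : Fin 3 → E3) : E3 →ₗ[ℝ] E3 where
  toFun v := v 0 • X 0 + v 1 • X 1 + v 2 • X 2
  map_add' v w := by simp only [PiLp.add_apply, add_smul]; abel
  map_smul' r v := by simp only [PiLp.smul_apply, smul_eq_mul, RingHom.id_apply, smul_add, mul_smul]

noncomputable def fA (X : Fin 3 → E3) (O : E3) : E3 →ᵃ[ℝ] E3 :=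
  (fL X).toAffineMap + AffineMap.const ℝ E3 O

theorem fA_apply (X : Fin 3 → E3) (O v : E3) : fA X O v = v 0 • X 0 + v 1 • X 1 + v 2 • X 2 + O := rfl

theorem fA_sub (X : Fin 3 → E3) (O v w : E3) :
    fA X O v - fA X O w = (v 0 - w 0) • X 0 + (v 1 - w 1) • X 1 + (v 2 - w 2) • X 2 := by
  rw [fA_apply, fA_apply]; module

/-- pairwise orthogonal and non-zero -/
def Orth (X : Fin 3 → E3) : Prop :=
  inner ℝ (X 0) (X 1) = 0 ∧ inner ℝ (X 0) (X 2) = 0 ∧ inner ℝ (X 1) (X 2) = 0 ∧ ∀ k, X k ≠ 0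

theorem inner_comb {X : Fin 3 → E3} (hX : Orth X) (a b c a' b' c' : ℝ) :
    inner ℝ (a • X 0 + b • X 1 + c • X 2) (a' • X 0 + b' • X 1 + c' • X 2) =
      a * a' * ‖X 0‖ ^ 2 + b * b' * ‖X 1‖ ^ 2 + c * c' * ‖X 2‖ ^ 2 := by
  obtain ⟨h01, h02, h12, -⟩ := hX
  have h10 : inner ℝ (X 1) (X 0) = 0 := by rw [real_inner_comm]; exact h01
  have h20 : inner ℝ (X 2) (X 0) = 0 := by rw [real_inner_comm]; exact h02
  have h21 : inner ℝ (X 2) (X 1) = 0 := by rw [real_inner_comm]; exact h12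
  simp only [inner_add_left, inner_add_right, inner_smul_left, inner_smul_right, h01, h02, h12, h10,
    h20, h21, real_inner_self_eq_norm_sq, conj_trivial]
  ring

theorem fA_inj {X : Fin 3 → E3} (hX : Orth X) (O : E3) : Function.Injective (fA X O) := by
  intro v w h
  have h1 : fA X O v - fA X O w = 0 := by rw [h, sub_self]
  rw [fA_sub] at h1
  have h2 := inner_comb hX (v 0 - w 0) (v 1 - w 1) (v 2 - w 2) (v 0 - w 0) (v 1 - w 1) (v 2 - w 2)
  rw [h1, inner_zero_left] at h2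
  have p : ∀ k, 0 < ‖X k‖ ^ 2 := fun k => by have := norm_pos_iff.2 (hX.2.2.2 k); positivity
  have p0 := p 0
  have p1 := p 1
  have p2 := p 2
  have q0 : 0 ≤ (v 0 - w 0) * (v 0 - w 0) * ‖X 0‖ ^ 2 := mul_nonneg (mul_self_nonneg _) p0.le
  have q1 : 0 ≤ (v 1 - w 1) * (v 1 - w 1) * ‖X 1‖ ^ 2 := mul_nonneg (mul_self_nonneg _) p1.le
  have q2 : 0 ≤ (v 2 - w 2) * (v 2 - w 2) * ‖X 2‖ ^ 2 := mul_nonneg (mul_self_nonneg _) p2.le
  have z : ∀ (t n : ℝ), 0 < n → t * t * n = 0 → t = 0 := fun t n hn h => by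
    rcases mul_eq_zero.1 h with h | h
    · exact mul_self_eq_zero.1 h
    · exact absurd h hn.ne'
  apply e3
  · have := z _ _ p0 (by linarith : (v 0 - w 0) * (v 0 - w 0) * ‖X 0‖ ^ 2 = 0); linarith
  · have := z _ _ p1 (by linarith : (v 1 - w 1) * (v 1 - w 1) * ‖X 1‖ ^ 2 = 0); linarith
  · have := z _ _ p2 (by linarith : (v 2 - w 2) * (v 2 - w 2) * ‖X 2‖ ^ 2 = 0); linarith

theorem suppG (x p y q : E3) (hn : ‖y - p‖ = ‖x - p‖)
    (hi : inner ℝ (x - p) (q - p) + inner ℝ (y - p) (q - p) = 0) :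
    ∠ x p q + ∠ q p y ≤ π := by
  unfold EuclideanGeometry.angle InnerProductGeometry.angle
  simp only [vsub_eq_sub]
  have h2 : inner ℝ (q - p) (y - p) = -inner ℝ (x - p) (q - p) := by
    rw [real_inner_comm]; linarith
  rw [hn, h2, mul_comm ‖q - p‖, neg_div, Real.arccos_neg]; linarith

theorem supp_fA {X : Fin 3 → E3} (hX : Orth X) (O x p y q : E3)
    (h1 : ∀ k, (x k - p k) ^ 2 = (y k - p k) ^ 2) (h2 : ∀ k, (x k + y k - 2 * p k) * (q k - p k) = 0) :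
    ∠ (fA X O x) (fA X O p) (fA X O q) + ∠ (fA X O q) (fA X O p) (fA X O y) ≤ π := by
  apply suppG
  · have e : ‖fA X O y - fA X O p‖ ^ 2 = ‖fA X O x - fA X O p‖ ^ 2 := by
      rw [← real_inner_self_eq_norm_sq, ← real_inner_self_eq_norm_sq, fA_sub, fA_sub, inner_comb hX,
        inner_comb hX]
      have a0 := h1 0
      have a1 := h1 1
      have a2 := h1 2
      have b0 : (y 0 - p 0) * (y 0 - p 0) = (x 0 - p 0) * (x 0 - p 0) := by nlinarith
      have b1 : (y 1 - p 1) * (y 1 - p 1) = (x 1 - p 1) * (x 1 - p 1) := by nlinarith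
      have b2 : (y 2 - p 2) * (y 2 - p 2) = (x 2 - p 2) * (x 2 - p 2) := by nlinarith
      rw [b0, b1, b2]
    exact (sq_eq_sq₀ (norm_nonneg _) (norm_nonneg _)).1 e
  · rw [fA_sub, fA_sub, fA_sub, inner_comb hX, inner_comb hX]
    have a0 := h2 0
    have a1 := h2 1
    have a2 := h2 2
    have c0 : (x 0 - p 0) * (q 0 - p 0) * ‖X 0‖ ^ 2 + (y 0 - p 0) * (q 0 - p 0) * ‖X 0‖ ^ 2 = 0 := by
      have : (x 0 - p 0) * (q 0 - p 0) * ‖X 0‖ ^ 2 + (y 0 - p 0) * (q 0 - p 0) * ‖X 0‖ ^ 2 =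
        (x 0 + y 0 - 2 * p 0) * (q 0 - p 0) * ‖X 0‖ ^ 2 := by ring
      rw [this, a0, zero_mul]
    have c1 : (x 1 - p 1) * (q 1 - p 1) * ‖X 1‖ ^ 2 + (y 1 - p 1) * (q 1 - p 1) * ‖X 1‖ ^ 2 = 0 := by
      have : (x 1 - p 1) * (q 1 - p 1) * ‖X 1‖ ^ 2 + (y 1 - p 1) * (q 1 - p 1) * ‖X 1‖ ^ 2 =
        (x 1 + y 1 - 2 * p 1) * (q 1 - p 1) * ‖X 1‖ ^ 2 := by ring
      rw [this, a1, zero_mul]
    have c2 : (x 2 - p 2) * (q 2 - p 2) * ‖X 2‖ ^ 2 + (y 2 - p 2) * (q 2 - p 2) * ‖X 2‖ ^ 2 = 0 := by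
      have : (x 2 - p 2) * (q 2 - p 2) * ‖X 2‖ ^ 2 + (y 2 - p 2) * (q 2 - p 2) * ‖X 2‖ ^ 2 =
        (x 2 + y 2 - 2 * p 2) * (q 2 - p 2) * ‖X 2‖ ^ 2 := by ring
      rw [this, a2, zero_mul]
    linarith

/-- opposite edges have the same length -/
def Equif (V : Fin 4 → E3) : Prop :=
  dist (V 0) (V 1) = dist (V 2) (V 3) ∧ dist (V 0) (V 2) = dist (V 1) (V 3) ∧
    dist (V 0) (V 3) = dist (V 1) (V 2)

theorem Equif.all {V : Fin 4 → E3} (h : Equif V) (a b c d : Fin 4) (hn : [a, b, c, d].Nodup) :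
    dist (V a) (V b) = dist (V c) (V d) := by
  obtain ⟨h1, h2, h3⟩ := h
  have s10 : dist (V 1) (V 0) = dist (V 0) (V 1) := dist_comm _ _
  have s20 : dist (V 2) (V 0) = dist (V 0) (V 2) := dist_comm _ _
  have s30 : dist (V 3) (V 0) = dist (V 0) (V 3) := dist_comm _ _
  have s21 : dist (V 2) (V 1) = dist (V 1) (V 2) := dist_comm _ _
  have s31 : dist (V 3) (V 1) = dist (V 1) (V 3) := dist_comm _ _
  have s32 : dist (V 3) (V 2) = dist (V 2) (V 3) := dist_comm _ _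
  fin_cases a <;> fin_cases b <;> fin_cases c <;> fin_cases d <;> first
    | exact absurd hn (by decide)
    | (simp only [Fin.mk_one, Fin.zero_eta, Fin.reduceFinMk, s10, s20, s30, s21, s31, s32, h1, h2, h3])

theorem ang_dist (p a q : E3) : ∠ p a q =
    arccos ((dist p a * dist p a + dist q a * dist q a - dist p q * dist p q) / 2 /
      (dist p a * dist q a)) := by
  unfold EuclideanGeometry.angle InnerProductGeometry.angle
  rw [real_inner_eq_norm_mul_self_add_norm_mul_self_sub_norm_sub_mul_self_div_two]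
  simp only [vsub_eq_sub, sub_sub_sub_cancel_right, dist_eq_norm]

theorem sum_angle {V : Fin 4 → E3} (h : Equif V) (hi : Function.Injective V) (a b c d : Fin 4)
    (hn : [a, b, c, d].Nodup) :
    ∠ (V b) (V a) (V c) + ∠ (V c) (V a) (V d) + ∠ (V d) (V a) (V b) = π := by
  have k : ∀ a b c d : Fin 4, [a, b, c, d].Nodup → [a, b, c, d].Nodup ∧ [a, c, b, d].Nodup ∧
    [a, d, b, c].Nodup ∧ a ≠ b ∧ a ≠ c ∧ b ≠ c := by decide
  obtain ⟨k1, k2, k3, nab, nac, nbc⟩ := k a b c d hn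
  have e1 := h.all a b c d k1
  have e2 := h.all a c b d k2
  have e3 := h.all a d b c k3
  have f1 : ∠ (V c) (V a) (V d) = ∠ (V a) (V c) (V b) := by
    rw [ang_dist, ang_dist, dist_comm (V d) (V a), e3, ← e1, dist_comm (V c) (V a)]
  have f2 : ∠ (V d) (V a) (V b) = ∠ (V c) (V b) (V a) := by
    rw [ang_dist, ang_dist, dist_comm (V d) (V a), e3, dist_comm (V b) (V a), dist_comm (V d) (V b), ← e2,
      dist_comm (V c) (V b), dist_comm (V c) (V a)]
  rw [f1, f2]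
  have := angle_add_angle_add_angle_eq_pi (p₁ := V b) (p₂ := V a) (V c) (fun e => nab (hi e))
  linarith [this]

end Pool.Agent.KS6_21.QGEO
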